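import Pool.Agent.MP_57a821_nt.Mg.Count

set_option autoImplicit false

namespace Pool.Agent.Results.MP_57a821_nt.PolyLog

open Polynomial

/-- For every integer polynomial `P` of degree at least two without repeated roots and every
nonzero integer `A`, the number of `n ≤ N` for which `P(x) = A * n!` has an integer solution `x` is
`O((log N * log log N)^3)`. The case `P = X * (X + 1) * (X + 2)`, `A = 1` is the equation of the
problem. -/
theorem result (P : ℤ[X]) (A : ℤ) (hd : 2 ≤ P.natDegree)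
    (hs : Squarefree (P.map (Int.castRingHom ℚ))) (hA : A ≠ 0) :
    ∃ C : ℝ, ∀ N : ℕ, 16 ≤ N →
      (({n : ℕ | n ≤ N ∧ ∃ x : ℤ, P.eval x = A * n.factorial}.ncard : ℕ) : ℝ)
        ≤ C * (Real.log N * Real.log (Real.log N)) ^ 3 :=
  Pool.Agent.MP_57a821_nt.count_real P hd hs A hA

/-- Sanity check: the equation of the problem is covered. -/
example : ∃ C : ℝ, ∀ N : ℕ, 16 ≤ N →
    (({n : ℕ | n ≤ N ∧ ∃ x : ℤ, (n.factorial : ℤ) = x * (x + 1) * (x + 2)}.ncard : ℕ) : ℝ)
      ≤ C * (Real.log N * Real.log (Real.log N)) ^ 3 := by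
  have hd : (X * (X + 1) * (X + 2) : ℤ[X]).natDegree = 3 := by compute_degree!
  have hs : Squarefree ((X * (X + 1) * (X + 2) : ℤ[X]).map (Int.castRingHom ℚ)) := by
    rw [← PerfectField.separable_iff_squarefree, separable_def']
    refine ⟨C (-9 / 2) * X + C (-9 / 2), C (3 / 2) * X ^ 2 + C 3 * X + C (1 / 2), ?_⟩
    apply Polynomial.funext
    intro y
    simp
    ring
  obtain ⟨C, hC⟩ := result _ 1 (by omega) hs one_ne_zero
  refine ⟨C, fun N hN => le_trans (le_of_eq ?_) (hC N hN)⟩
  congr 2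
  ext n
  simp [eq_comm]

end Pool.Agent.Results.MP_57a821_nt.PolyLog
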